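import Pool.Agent.H44.PCAMix

open MeasureTheory ProbabilityTheory Pool.Agent.H44.PCA

namespace Pool.Agent.Results.MP_3c7ff8_pr.Mixing

/-- The unique invariant measure of every ergodic PCA is shift-invariant and spatially mixing. -/
theorem result (d : ℕ) (A : Type) [Fintype A] [MeasurableSpace A] [DiscreteMeasurableSpace A]
    (N : Finset (Fin d → ℤ)) (f : (↥N → A) → ProbabilityMeasure A)
    (κ : Kernel ((Fin d → ℤ) → A) ((Fin d → ℤ) → A)) (hκ : IsPCA N f κ)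
    (π : Measure ((Fin d → ℤ) → A)) (hπ : IsErgodic κ π) :
    (∀ k, π.map (shift k) = π) ∧
    ∀ (S S' : Finset (Fin d → ℤ)) (a a' : (Fin d → ℤ) → A) (ε : ℝ), 0 < ε →
      ∃ R : ℝ, ∀ k : Fin d → ℤ, R ≤ ‖k‖ →
        |(π (cyl S a ∩ shift k ⁻¹' cyl S' a')).toReal -
          (π (cyl S a)).toReal * (π (cyl S' a')).toReal| < ε :=
  ⟨shift_invariant hκ hπ, fun S S' a a' _ hε => mixing hκ hπ S S' a a' hε⟩

end Pool.Agent.Results.MP_3c7ff8_pr.Mixing
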